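import Pool.Agent.helper19.MX.SpecA

/-!
Row mx:CS0 (MP_a875de_ag).
-/

set_option autoImplicit false

namespace MX

open Pool.Agent.helper53.AU AN
open scoped Classical Topology
open Finset (range powerset Icc)

theorem CS0 (hCH2 : CH2_stmt) (hPS1 : PS1_stmt) (hCUB : CUB_stmt) : CS0_stmt := by
  intro K _ _ n hcard θ b v r y hv hb1 hb0 hy
  have : CharP K 2 := (hCH2 K n hcard).1
  obtain ⟨-, hadd, hker, hpow, -, -⟩ := hPS1 K
  have h2 : (2 : K) = 0 := by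
    have := CharP.cast_eq_zero K 2
    exact_mod_cast this
  obtain ⟨m, hm⟩ := FiniteField.isSquare_of_char_two (ringChar.eq K 2) r
  -- ps (m ^ 3) = ps θ
  have hm3 : ps (m ^ 3) = ps θ := by
    have e1 : (m ^ 3) ^ (2 ^ 1) = r ^ 3 := by rw [hm]; ring
    have e2 : r ^ 3 = (y ^ 2 + y) + θ := by linear_combination (-1 : K) * hy + (-θ) * h2
    rw [← hpow (m ^ 3) 1, e1, e2, hadd, hker, one_mul]
  have key : ∀ x : K, ps (fb 1 b x) = ps θ * ps ((v * x + m) ^ 3) := by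
    intro x
    have e1 : fb 1 b x = v ^ 3 * x ^ 3 + (v ^ 2 * m * x ^ 2) ^ (2 ^ 1) + (v * m ^ 2 * x) ^ (2 ^ 2) := by
      unfold fb
      rw [Finset.sum_range_succ, Finset.sum_range_one, hb1, hb0, hm]
      norm_num
      ring
    have e2 : (v * x + m) ^ 3 + m ^ 3 = v ^ 3 * x ^ 3 + v ^ 2 * m * x ^ 2 + v * m ^ 2 * x := by
      linear_combination (v ^ 2 * m * x ^ 2 + v * m ^ 2 * x + m ^ 3) * h2
    rw [e1, hadd, hadd, hpow, hpow, ← hadd, ← hadd, ← e2, hadd, hm3, mul_comm]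
  calc ∑ x : K, ps (fb 1 b x) = ∑ x : K, ps θ * ps ((v * x + m) ^ 3) := Finset.sum_congr rfl fun x _ => key x
    _ = ps θ * ∑ x : K, ps ((v * x + m) ^ 3) := by rw [Finset.mul_sum]
    _ = ps θ * ∑ x : K, ps (x ^ 3) := by
        congr 1
        exact Fintype.sum_equiv ((Equiv.mulLeft₀ v hv).trans (Equiv.addRight m)) _ _ fun x => rfl
    _ = ps θ * ((-1) ^ (n + 1) * 2 ^ (n + 1)) := by rw [hCUB K n hcard]

end MX
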