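import Pool.Agent.helper19.MX.SpecC

/-!
Row mx:GCL (MP_a875de_ag).
-/

set_option autoImplicit false

namespace MX

open Pool.Agent.helper53.AU AN
open scoped Classical Topology
open Polynomial

theorem GCL_galois {k Ω : Type} [Field k] [Field Ω] [Algebra k Ω] [IsAlgClosed Ω] (s : Ω)
    (Z : Finset Ω) (hZ : ∀ z ∈ Z, IsSeparable (Subfield.closure ({s} : Set Ω)) z) :
    ∃ (R : Set Ω) (p : (Subfield.closure ({s} : Set Ω))[X]), p ≠ 0 ∧ R = p.rootSet Ω ∧ (Z : Set Ω) ⊆ R ∧
      FiniteDimensional (IntermediateField.adjoin k ({s} : Set Ω))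
        (IntermediateField.adjoin (IntermediateField.adjoin k ({s} : Set Ω)) R) ∧
      IsGalois (IntermediateField.adjoin k ({s} : Set Ω))
        (IntermediateField.adjoin (IntermediateField.adjoin k ({s} : Set Ω)) R) := by
  set F₀ := Subfield.closure ({s} : Set Ω) with hF₀
  set K₁ := IntermediateField.adjoin k ({s} : Set Ω) with hK₁
  have hle : F₀ ≤ K₁.toSubfield := by
    rw [hF₀, Subfield.closure_le]
    exact IntermediateField.subset_adjoin k _
  let j : F₀ →+* K₁ :=
    { toFun := fun x => ⟨x.1, hle x.2⟩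
      map_one' := rfl
      map_mul' := fun _ _ => rfl
      map_zero' := rfl
      map_add' := fun _ _ => rfl }
  have hj : (algebraMap K₁ Ω).comp j = algebraMap F₀ Ω := rfl
  let p : F₀[X] := ∏ z ∈ Z, minpoly F₀ z
  have hint : ∀ z ∈ Z, IsIntegral F₀ z := fun z hz => (hZ z hz).isIntegral
  have hp0 : p ≠ 0 := Finset.prod_ne_zero_iff.2 fun z hz => minpoly.ne_zero (hint z hz)
  let p₁ : K₁[X] := p.map j
  have hp₁0 : p₁ ≠ 0 := (Polynomial.map_ne_zero_iff j.injective).2 hp0
  have hroot : p₁.rootSet Ω = p.rootSet Ω := by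
    ext x
    rw [mem_rootSet, mem_rootSet]
    have h1 : aeval x p₁ = aeval x p := by
      show aeval x (p.map j) = _
      rw [aeval_def, eval₂_map, hj, aeval_def]
    rw [h1]
    exact ⟨fun h => ⟨hp0, h.2⟩, fun h => ⟨hp₁0, h.2⟩⟩
  -- every root is separable over `K₁`
  have hsep : ∀ x ∈ p.rootSet Ω, IsSeparable K₁ x := by
    intro x hx
    rw [mem_rootSet] at hx
    have h1 : ∏ z ∈ Z, aeval x (minpoly F₀ z) = 0 := by
      rw [← map_prod]
      exact hx.2
    obtain ⟨z, hz, hz0⟩ := Finset.prod_eq_zero_iff.1 h1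
    have h2' : (minpoly F₀ z).Separable := hZ z hz
    have h2 : ((minpoly F₀ z).map j).Separable := h2'.map
    refine Polynomial.Separable.of_dvd h2 (minpoly.dvd K₁ x ?_)
    rw [aeval_def, eval₂_map, hj]
    exact hz0
  have hfin : Finite (p.rootSet Ω) := (rootSet_finite p Ω)
  refine ⟨p.rootSet Ω, p, hp0, rfl, ?_, ?_, ?_⟩
  · intro z hz
    rw [mem_rootSet]
    refine ⟨hp0, ?_⟩
    show aeval z (∏ z ∈ Z, minpoly F₀ z) = 0
    rw [map_prod]
    exact Finset.prod_eq_zero (i := z) hz (minpoly.aeval F₀ z)
  · exact IntermediateField.finiteDimensional_adjoin fun x hx => (hsep x hx).isIntegral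
  · rw [isGalois_iff]
    refine ⟨(IntermediateField.isSeparable_adjoin_iff_isSeparable K₁ Ω).2 hsep, ?_⟩
    have h1 : (p₁.map (algebraMap K₁ Ω)).Splits := IsAlgClosed.splits _
    have h2 := IntermediateField.adjoin_rootSet_isSplittingField h1
    rw [hroot] at h2
    exact Normal.of_isSplittingField p₁

theorem GCL : GCL_stmt := by
  intro k Ω _ _ _ _ s hs Z hZ
  obtain ⟨R, p, hp0, hR, hZR, hfd, hgal⟩ := GCL_galois (k := k) s Z hZ
  set K₁ := IntermediateField.adjoin k ({s} : Set Ω) with hK₁
  set F' := IntermediateField.adjoin K₁ R with hF'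
  have hsF : s ∈ F'.restrictScalars k :=
    (IntermediateField.algebraMap_mem F' (⟨s, IntermediateField.mem_adjoin_simple_self k s⟩ : K₁))
  -- the isomorphism of the base fields
  set K₂ := IntermediateField.adjoin k ({(⟨s, hsF⟩ : F'.restrictScalars k)} : Set (F'.restrictScalars k)) with hK₂
  have hlift : IntermediateField.lift K₂ = K₁ := IntermediateField.lift_adjoin_simple _ _ _
  let f : K₁ ≃+* K₂ :=
    ((IntermediateField.liftAlgEquiv K₂).trans (IntermediateField.equivOfEq hlift)).symm.toRingEquiv
  have hf : ∀ x : K₁, ((f x).1.1 : Ω) = x.1 := by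
    intro x
    obtain ⟨y, rfl⟩ := ((IntermediateField.liftAlgEquiv K₂).trans (IntermediateField.equivOfEq hlift)).surjective x
    have h1 : f (((IntermediateField.liftAlgEquiv K₂).trans (IntermediateField.equivOfEq hlift)) y) = y :=
      AlgEquiv.symm_apply_apply _ y
    rw [h1]
    rfl
  let g : F' ≃+* (F'.restrictScalars k) := RingEquiv.refl F'
  have hcomp : (algebraMap K₂ (F'.restrictScalars k)).comp (f : K₁ →+* K₂) =
      (g : F' →+* (F'.restrictScalars k)).comp (algebraMap K₁ F') := by
    ext x
    exact hf x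
  refine ⟨F'.restrictScalars k, hsF, ?_, ?_, ?_, ?_⟩
  · exact hZR.trans (IntermediateField.subset_adjoin K₁ R)
  · refine ⟨⟨s, hsF⟩, ?_, ?_⟩
    · intro halg
      refine hs ?_
      have := halg.algHom ((F'.restrictScalars k).val)
      exact this
    · exact Module.Finite.of_equiv_equiv f g hcomp
  · exact IsGalois.of_equiv_equiv (h := hgal) hcomp
  · intro α hα hk z hz
    have hfix : α.toRingHom.comp (algebraMap (Subfield.closure ({s} : Set Ω)) Ω) =
        algebraMap (Subfield.closure ({s} : Set Ω)) Ω := by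
      have h1 : Subfield.closure ({s} : Set Ω) ≤ RingHom.eqLocusField α.toRingHom (RingHom.id Ω) := by
        rw [Subfield.closure_le]
        intro x hx
        rw [Set.mem_singleton_iff] at hx
        subst hx
        exact hα
      ext x
      exact h1 x.2
    have hz' : z ∈ IntermediateField.adjoin k ({s} ∪ R) := by
      rw [← IntermediateField.adjoin_adjoin_left]
      exact hz
    rw [hF', hK₁, IntermediateField.adjoin_adjoin_left]
    refine IntermediateField.adjoin_induction k (p := fun z _ => α z ∈ IntermediateField.adjoin k ({s} ∪ R))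
      ?_ ?_ ?_ ?_ ?_ hz'
    · intro x hx
      rcases hx with hx | hx
      · rw [Set.mem_singleton_iff] at hx
        rw [hx, hα]
        exact IntermediateField.subset_adjoin k _ (Or.inl rfl)
      · refine IntermediateField.subset_adjoin k _ (Or.inr ?_)
        rw [hR, mem_rootSet] at hx ⊢
        refine ⟨hp0, ?_⟩
        have h1 := Polynomial.hom_eval₂ p (algebraMap (Subfield.closure ({s} : Set Ω)) Ω) α.toRingHom x
        rw [hfix] at h1
        have h2 : p.eval₂ (algebraMap (Subfield.closure ({s} : Set Ω)) Ω) x = 0 := hx.2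
        rw [h2, map_zero] at h1
        exact h1.symm
    · intro c
      obtain ⟨c', hc'⟩ := hk c
      rw [hc']
      exact IntermediateField.algebraMap_mem _ c'
    · intro x y _ _ hx hy
      rw [map_add]
      exact add_mem hx hy
    · intro x _ hx
      rw [map_inv₀]
      exact inv_mem hx
    · intro x y _ _ hx hy
      rw [map_mul]
      exact mul_mem hx hy

end MX
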